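import Pool.Agent.Lib.MP_8f595d_ag.Main

/-!
# MP_8f595d_ag: a `ℚ`-acyclic surface of log-general type with `K_V (K_V + D) = 2`

The definitions used by the statement are in `Pool/Agent/Lib/MP_8f595d_ag/Statement.lean`.

The example: `V` is the blow-up of the projective plane at the 12 triple points of the dual Hesse
arrangement of 9 lines, `D` consists of the strict transforms of the 9 lines and of the exceptional
curves over the 4 triple points of one of the lines.
-/

set_option autoImplicit false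

open scoped Manifold ContDiff

open Pool.Agent.MP_8f595d_ag

namespace Pool.Agent.Results.MP_8f595d_ag.DualHesse

/-- There is a smooth projective complex surface `V` with a minimal simple normal crossings
divisor `D`, with 13 components, such that `X = V ∖ D` is `ℚ`-acyclic and of log-general type and
`K_V · (K_V + D) = 2`. -/
theorem result :
    ∃ (V : Type) (_ : TopologicalSpace V) (_ : ChartedSpace (ℂ × ℂ) V)
      (D : Fin 13 → Curve (atlas (ℂ × ℂ) V)),
      IsManifold 𝓘(ℂ, ℂ × ℂ) ω V ∧ CompactSpace V ∧ T2Space V ∧ ConnectedSpace V ∧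
      IsProjectiveSurface V (atlas (ℂ × ℂ) V) ∧
      IsSNC (atlas (ℂ × ℂ) V) D ∧ IsMinimal (atlas (ℂ × ℂ) V) D ∧
      IsQAcyclic ↥(opn D) ∧ LogGeneralType (atlas (ℂ × ℂ) V) D ∧
      (∃ K : Pool.Agent.MP_8f595d_ag.Div (atlas (ℂ × ℂ) V), IsCanonical (atlas (ℂ × ℂ) V) K ∧
        ∀ n : ℤ, Dot (atlas (ℂ × ℂ) V) K (K + ∑ i, Finsupp.single (D i) 1) n ↔ n = 2) ∧
      ∃ n : Fin 13 → ℤ,
        (∀ (i : Fin 13) (m : ℤ), SelfInt (atlas (ℂ × ℂ) V) (D i) m ↔ m = n i) ∧
        10 - 3 * 13 - ∑ i, n i = 2 :=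
  Pool.Agent.MP_8f595d_ag.main

end Pool.Agent.Results.MP_8f595d_ag.DualHesse
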